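import Pool.Agent.TFN.EZ

set_option autoImplicit false

/-!
# MP_5c1192_gt: separable hereditarily normal compact spaces of large tightness are consistent

For every well-ordered set `Λ` there is a model `(N, E)` of ZFC with a space `(X, τ)` in it which, in the sense of the
model, is compact Hausdorff, separable and hereditarily normal, and whose tightness is greater than the cardinality of
each member `L a` of a sequence (indexed by `Λ`) of infinite sets of strictly increasing cardinality.

The model: `B`-valued sets modulo an ultrafilter, where `B` is the regular open algebra of a forcing notion with the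
countable chain condition which adds a tower `(T_α)` of subsets of `ω` of regular length, and, for any two separated
subsets of the tower, a subset of `ω` separating the corresponding blocks.  The space: `ω ∪ {T_α} ∪ {∞}`.
-/

namespace Pool.Agent.Results.MP_5c1192_gt.LargeTightness

open Pool.Agent.BVU Pool.Agent.TFN

theorem result : ∀ (Λ : Type) (_ : LinearOrder Λ), WellFounded ((· < ·) : Λ → Λ → Prop) →
    ∃ (N : Type 1) (E : N → N → Prop), ZFC E ∧ ∃ (X τ om : N) (L : Λ → N),
      IsTop E X τ ∧ IsHausdorff E X τ ∧ IsCompactSp E X τ ∧ IsSeparable E X τ ∧ IsHerNormal E X τ ∧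
      IsOmega E om ∧ (∀ a, Sub E om (L a)) ∧
      (∀ a b, a < b → Sub E (L a) (L b) ∧ ¬ OntoFrom E (L a) (L b)) ∧
      ∀ a, ¬ IsTightAt E (L a) X τ := by
  intro Λ h hΛ
  obtain ⟨N, E, hE, X, τ, h1, h2, h3, h4, h5, -, om, L, h6, h7, h8, h9⟩ := goal2 Λ h hΛ
  exact ⟨N, E, hE, X, τ, om, L, h1, h2, h3, h4, h5, h6, h7, h8, h9⟩

end Pool.Agent.Results.MP_5c1192_gt.LargeTightness
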